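import Mathlib
import Pool.Agent.Q82.Height

set_option autoImplicit false

/-!
# Almost grid-free hypersurfaces need not have bounded degree up to Cremona transformations

For `s = 2`, `t = 3` there are irreducible almost `(2, 3)`-grid-free hypersurfaces in `ℙ² × ℙ²`
which are not almost equal to `{F ∘ (id × σ) = 0}` with `σ` a Cremona transformation of `ℙ²` and
`F` of bounded degree in `y`.
-/

namespace Pool.Agent.Results.MP_b5dac0_ag.CremonaUnbounded

open MvPolynomial
open scoped LinearAlgebra.Projectivization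

/-- The polynomials in `x_0, ..., x_s` (indices `Sum.inl i`) and `y_0, ..., y_s`
(indices `Sum.inr i`). -/
abbrev Poly (s : ℕ) : Type := MvPolynomial (Fin (s + 1) ⊕ Fin (s + 1)) ℂ

/-- The projective space `ℙ^s` over `ℂ`. -/
abbrev PP (s : ℕ) : Type := ℙ ℂ (Fin (s + 1) → ℂ)

/-- `F` is homogeneous of degree `m` in `x` and homogeneous of degree `n` in `y`. -/
def IsBihom {s : ℕ} (F : Poly s) (m n : ℕ) : Prop :=
  ∀ d ∈ F.support, ∑ i, d (Sum.inl i) = m ∧ ∑ i, d (Sum.inr i) = n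

/-- The zero set of `F` in `ℙ^s × ℙ^s`. -/
def zeroSet {s : ℕ} (F : Poly s) : Set (PP s × PP s) :=
  {p | eval (Sum.elim p.1.rep p.2.rep) F = 0}

/-- An irreducible hypersurface in `ℙ^s × ℙ^s`. -/
def IsIrreducibleHypersurface {s : ℕ} (H : Set (PP s × PP s)) : Prop :=
  ∃ (G : Poly s) (m n : ℕ), IsBihom G m n ∧ Irreducible G ∧ H = zeroSet G

/-- `U` is a Zariski-open subset of `ℙ^s`. -/
def IsZariskiOpen {s : ℕ} (U : Set (PP s)) : Prop :=
  ∃ S : Set (MvPolynomial (Fin (s + 1)) ℂ), (∀ f ∈ S, ∃ n, f.IsHomogeneous n) ∧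
    U = {p | ∃ f ∈ S, eval p.rep f ≠ 0}

/-- `V` is `(s, t)`-grid-free: it contains no `S × T` with `|S| = s`, `|T| = t`. -/
def GridFree {P₁ P₂ : Type} (s t : ℕ) (V : Set (P₁ × P₂)) : Prop :=
  ¬ ∃ (S : Finset P₁) (T : Finset P₂), S.card = s ∧ T.card = t ∧ ∀ u ∈ S, ∀ v ∈ T, (u, v) ∈ V

/-- `V` is almost `(s, t)`-grid-free. -/
def AlmostGridFree {r : ℕ} (s t : ℕ) (V : Set (PP r × PP r)) : Prop :=
  ∃ X Y : Set (PP r), IsZariskiOpen X ∧ X.Nonempty ∧ IsZariskiOpen Y ∧ Y.Nonempty ∧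
    GridFree s t (V ∩ X ×ˢ Y)

/-- `V₁` and `V₂` are almost equal. -/
def AlmostEqual {r : ℕ} (V₁ V₂ : Set (PP r × PP r)) : Prop :=
  ∃ X Y : Set (PP r), IsZariskiOpen X ∧ X.Nonempty ∧ IsZariskiOpen Y ∧ Y.Nonempty ∧
    V₁ ∩ X ×ˢ Y = V₂ ∩ X ×ˢ Y

/-- `σ = (σ_0 : ... : σ_s)`, given by homogeneous polynomials of equal degree without common
factor, is a birational automorphism of `ℙ^s`: there is `τ = (τ_0 : ... : τ_s)`, given by
homogeneous polynomials of equal degree, with `σ ∘ τ` and `τ ∘ σ` the identity as rational maps. -/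
structure IsCremona {s : ℕ} (σ : Fin (s + 1) → MvPolynomial (Fin (s + 1)) ℂ) : Prop where
  homogeneous : ∃ n, ∀ i, (σ i).IsHomogeneous n
  no_common_factor : ∀ g, (∀ i, g ∣ σ i) → IsUnit g
  birational : ∃ (τ : Fin (s + 1) → MvPolynomial (Fin (s + 1)) ℂ) (m : ℕ),
    (∀ i, (τ i).IsHomogeneous m) ∧
      (∃ K, K ≠ 0 ∧ ∀ i, aeval τ (σ i) = K * X i) ∧ ∃ K, K ≠ 0 ∧ ∀ i, aeval σ (τ i) = K * X i

/-- `F ∘ (id × σ)`, i.e. `F(x, σ_0(y), ..., σ_s(y))`. -/
noncomputable def comp {s : ℕ} (F : Poly s) (σ : Fin (s + 1) → MvPolynomial (Fin (s + 1)) ℂ) :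
    Poly s :=
  aeval (Sum.elim (fun i => X (Sum.inl i)) fun i => rename Sum.inr (σ i)) F

/-! ### generalities -/

lemma aeval_bihom {s m n : ℕ} {F : Poly s} (hF : IsBihom F m n) {R : Type} [CommRing R]
    [Algebra ℂ R] (a b : R) (u v : Fin (s + 1) → R) :
    aeval (Sum.elim (fun i => a * u i) fun i => b * v i) F =
      a ^ m * b ^ n * aeval (Sum.elim u v) F := by
  rw [aeval_def, aeval_def, eval₂_eq', eval₂_eq', Finset.mul_sum]
  apply Finset.sum_congr rfl
  intro d hd
  obtain ⟨h1, h2⟩ := hF d hd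
  simp only [Fintype.prod_sum_type, Sum.elim_inl, Sum.elim_inr, mul_pow,
    Finset.prod_mul_distrib, Finset.prod_pow_eq_pow_sum, h1, h2]
  ring

lemma aeval_hom {k n : ℕ} {g : MvPolynomial (Fin k) ℂ} (hg : g.IsHomogeneous n) {R : Type}
    [CommRing R] [Algebra ℂ R] (a : R) (u : Fin k → R) :
    aeval (fun i => a * u i) g = a ^ n * aeval u g := by
  rw [aeval_def, aeval_def, eval₂_eq', eval₂_eq', Finset.mul_sum]
  apply Finset.sum_congr rfl
  intro d hd
  have h1 : ∑ i, d i = n := by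
    have := hg (mem_support_iff.1 hd)
    rw [← this, Finsupp.weight_apply, Finsupp.sum_fintype _ _ (by simp)]
    simp
  simp only [mul_pow, Finset.prod_mul_distrib, Finset.prod_pow_eq_pow_sum, h1]
  ring

lemma eval_bihom {s m n : ℕ} {F : Poly s} (hF : IsBihom F m n) (a b : ℂ)
    (u v : Fin (s + 1) → ℂ) :
    eval (Sum.elim (a • u) (b • v)) F = a ^ m * b ^ n * eval (Sum.elim u v) F := by
  have := aeval_bihom hF a b u v
  rwa [aeval_eq_eval, aeval_eq_eval] at this

lemma eval_hom {k n : ℕ} {g : MvPolynomial (Fin k) ℂ} (hg : g.IsHomogeneous n) (a : ℂ)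
    (u : Fin k → ℂ) : eval (a • u) g = a ^ n * eval u g := by
  have := aeval_hom hg a u
  rwa [aeval_eq_eval, aeval_eq_eval] at this

lemma mem_zeroSet_mk {s m n : ℕ} {F : Poly s} (hF : IsBihom F m n) {u v : Fin (s + 1) → ℂ}
    (hu : u ≠ 0) (hv : v ≠ 0) :
    ((Projectivization.mk ℂ u hu, Projectivization.mk ℂ v hv) : PP s × PP s) ∈ zeroSet F ↔
      eval (Sum.elim u v) F = 0 := by
  obtain ⟨a, ha⟩ := Projectivization.exists_smul_eq_mk_rep ℂ u hu
  obtain ⟨b, hb⟩ := Projectivization.exists_smul_eq_mk_rep ℂ v hv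
  show eval (Sum.elim (Projectivization.mk ℂ u hu).rep (Projectivization.mk ℂ v hv).rep) F = 0 ↔ _
  rw [← ha, ← hb]
  have := eval_bihom hF (a : ℂ) (b : ℂ) u v
  rw [show (a • u) = (a : ℂ) • u from rfl, show (b • v) = (b : ℂ) • v from rfl, this]
  simp

lemma eval_comp {s : ℕ} (F : Poly s) (σ : Fin (s + 1) → MvPolynomial (Fin (s + 1)) ℂ)
    (u v : Fin (s + 1) → ℂ) :
    eval (Sum.elim u v) (comp F σ) = eval (Sum.elim u fun i => eval v (σ i)) F := by
  have h : (aeval (Sum.elim u v) : Poly s →ₐ[ℂ] ℂ).comp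
      (aeval (Sum.elim (fun i => X (Sum.inl i)) fun i => rename Sum.inr (σ i))) =
      aeval (Sum.elim u fun i => eval v (σ i)) := by
    apply algHom_ext
    intro i
    rcases i with i | i
    · simp
    · simp only [AlgHom.comp_apply, aeval_X, Sum.elim_inr, aeval_rename]
      have : (Sum.elim u v ∘ Sum.inr) = v := by funext k; rfl
      rw [this, aeval_eq_eval]
  have := congrArg (fun f => f F) h
  simpa [AlgHom.comp_apply, aeval_eq_eval, comp] using this

lemma mem_zeroSet_comp {s m n N : ℕ} {F : Poly s} (hF : IsBihom F m n)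
    {σ : Fin (s + 1) → MvPolynomial (Fin (s + 1)) ℂ} (hσ : ∀ i, (σ i).IsHomogeneous N)
    {u v : Fin (s + 1) → ℂ} (hu : u ≠ 0) (hv : v ≠ 0)
    (h : ((Projectivization.mk ℂ u hu, Projectivization.mk ℂ v hv) : PP s × PP s) ∈
      zeroSet (comp F σ)) :
    eval (Sum.elim u fun i => eval v (σ i)) F = 0 := by
  obtain ⟨a, ha⟩ := Projectivization.exists_smul_eq_mk_rep ℂ u hu
  obtain ⟨b, hb⟩ := Projectivization.exists_smul_eq_mk_rep ℂ v hv
  have h' : eval (Sum.elim (Projectivization.mk ℂ u hu).rep (Projectivization.mk ℂ v hv).rep)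
    (comp F σ) = 0 := h
  rw [← ha, ← hb, eval_comp] at h'
  have e : (fun i => eval (b • v) (σ i)) = ((b : ℂ) ^ N) • fun i => eval v (σ i) := by
    funext i
    exact eval_hom (hσ i) (b : ℂ) v
  rw [e] at h'
  have := eval_bihom hF (a : ℂ) ((b : ℂ) ^ N) u fun i => eval v (σ i)
  rw [show (a • u) = (a : ℂ) • u from rfl, this] at h'
  simpa using h'

lemma exists_of_open {s : ℕ} {U : Set (PP s)} (hU : IsZariskiOpen U) (hne : U.Nonempty) :
    ∃ (h : MvPolynomial (Fin (s + 1)) ℂ) (n : ℕ), h.IsHomogeneous n ∧ h ≠ 0 ∧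
      ∀ (u : Fin (s + 1) → ℂ) (hu : u ≠ 0), eval u h ≠ 0 → Projectivization.mk ℂ u hu ∈ U := by
  obtain ⟨S, hS, rfl⟩ := hU
  obtain ⟨p, f, hf, hpf⟩ := hne
  obtain ⟨n, hn⟩ := hS f hf
  refine ⟨f, n, hn, ?_, ?_⟩
  · rintro rfl
    simp at hpf
  · intro u hu huf
    obtain ⟨a, ha⟩ := Projectivization.exists_smul_eq_mk_rep ℂ u hu
    refine ⟨f, hf, ?_⟩
    rw [← ha, show (a • u) = (a : ℂ) • u from rfl, eval_hom hn]
    exact mul_ne_zero (pow_ne_zero _ a.ne_zero) huf

lemma exists_eval_ne {ι : Type} {p : MvPolynomial ι ℂ} (hp : p ≠ 0) : ∃ x, eval x p ≠ 0 := by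
  by_contra h
  push Not at h
  exact hp (funext fun x => by rw [h x, map_zero])

lemma proj_eq {p q : PP 2} {r : Fin 3 → ℂ} {a b : ℂ} (hp : p.rep = a • r) (hq : q.rep = b • r) :
    p = q := by
  have ha : a ≠ 0 := by
    rintro rfl
    exact p.rep_nonzero (by rw [hp, zero_smul])
  have hb : b ≠ 0 := by
    rintro rfl
    exact q.rep_nonzero (by rw [hq, zero_smul])
  rw [← p.mk_rep, ← q.mk_rep, Projectivization.mk_eq_mk_iff']
  refine ⟨a / b, ?_⟩
  rw [hp, hq, smul_smul, div_mul_cancel₀ _ hb]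

/-! ### the hypersurface -/

/-- the map `(y_1² y_0^l + y_2^(l+2) : y_2 y_0^(l+1) : y_0^(l+2))` -/
noncomputable def P (l : ℕ) : Fin 3 → MvPolynomial (Fin 3) ℂ :=
  ![X 1 ^ 2 * X 0 ^ l + X 2 ^ (l + 2), X 2 * X 0 ^ (l + 1), X 0 ^ (l + 2)]

/-- the equation of the hypersurface -/
noncomputable def G (l : ℕ) : Poly 2 := ∑ i : Fin 3, X (Sum.inl i) * rename Sum.inr (P l i)

lemma P_hom (l : ℕ) (i : Fin 3) : (P l i).IsHomogeneous (l + 2) := by
  fin_cases i
  · show (X 1 ^ 2 * X 0 ^ l + X 2 ^ (l + 2) : MvPolynomial (Fin 3) ℂ).IsHomogeneous (l + 2)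
    refine IsHomogeneous.add ?_ (isHomogeneous_X_pow _ _)
    have := (isHomogeneous_X_pow (R := ℂ) (1 : Fin 3) 2).mul (isHomogeneous_X_pow (0 : Fin 3) l)
    rwa [add_comm] at this
  · show (X 2 * X 0 ^ (l + 1) : MvPolynomial (Fin 3) ℂ).IsHomogeneous (l + 2)
    have := (isHomogeneous_X ℂ (2 : Fin 3)).mul (isHomogeneous_X_pow (0 : Fin 3) (l + 1))
    rwa [show 1 + (l + 1) = l + 2 by ring] at this
  · exact isHomogeneous_X_pow _ _

lemma eval_G (l : ℕ) (u v : Fin 3 → ℂ) :
    eval (Sum.elim u v) (G l) = u 0 * (v 1 ^ 2 * v 0 ^ l + v 2 ^ (l + 2)) +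
      u 1 * (v 2 * v 0 ^ (l + 1)) + u 2 * v 0 ^ (l + 2) := by
  simp [G, P, Fin.sum_univ_three]

lemma eval_G' (l : ℕ) (u v : Fin 3 → ℂ) :
    eval (Sum.elim u v) (G l) = u 0 * eval v (P l 0) + u 1 * eval v (P l 1) +
      u 2 * eval v (P l 2) := by
  have e : (Sum.elim u v ∘ Sum.inr) = v := by funext k; rfl
  simp [G, Fin.sum_univ_three, eval_rename, e]

lemma isBihom_G (l : ℕ) : IsBihom (G l) 1 (l + 2) := by
  intro d hd
  rw [G] at hd
  obtain ⟨i, -, hi⟩ := Finset.mem_biUnion.1 (support_sum hd)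
  rw [support_X_mul, Finset.mem_map] at hi
  obtain ⟨e, he, rfl⟩ := hi
  rw [support_rename_of_injective Sum.inr_injective, Finset.mem_image] at he
  obtain ⟨f, hf, rfl⟩ := he
  have h1 : ∑ i, f i = l + 2 := by
    have := P_hom l i (mem_support_iff.1 hf)
    rw [← this, Finsupp.weight_apply, Finsupp.sum_fintype _ _ (by simp)]
    simp
  constructor
  · simp only [addLeftEmbedding_apply, Finsupp.add_apply]
    rw [Finset.sum_add_distrib]
    have h2 : ∑ k : Fin 3, (Finsupp.mapDomain Sum.inr f : (Fin 3 ⊕ Fin 3) →₀ ℕ) (Sum.inl k) = 0 := by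
      apply Finset.sum_eq_zero
      intro k _
      exact Finsupp.mapDomain_of_notMem_range _ _ (by simp)
    rw [h2, add_zero]
    rw [Finset.sum_eq_single i]
    · simp
    · intro b _ hb
      rw [Finsupp.single_apply, if_neg]
      simpa using hb.symm
    · simp
  · simp only [addLeftEmbedding_apply, Finsupp.add_apply]
    rw [Finset.sum_add_distrib]
    have h2 : ∑ k : Fin 3, (Finsupp.single (Sum.inl i) 1 : (Fin 3 ⊕ Fin 3) →₀ ℕ) (Sum.inr k) = 0 := by
      apply Finset.sum_eq_zero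
      intro k _
      simp
    rw [h2, zero_add, ← h1]
    apply Finset.sum_congr rfl
    intro k _
    rw [Finsupp.mapDomain_apply Sum.inr_injective]

lemma notMem_vars_add {ι : Type} {i : ι} {p q : MvPolynomial ι ℂ} (hp : i ∉ p.vars)
    (hq : i ∉ q.vars) : i ∉ (p + q).vars := by
  classical
  intro h
  rcases Finset.mem_union.1 (vars_add_subset p q h) with h | h
  · exact hp h
  · exact hq h

lemma notMem_vars_mul {ι : Type} {i : ι} {p q : MvPolynomial ι ℂ} (hp : i ∉ p.vars)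
    (hq : i ∉ q.vars) : i ∉ (p * q).vars := by
  classical
  intro h
  rcases Finset.mem_union.1 (vars_mul p q h) with h | h
  · exact hp h
  · exact hq h

lemma notMem_vars_pow {ι : Type} {i : ι} {p : MvPolynomial ι ℂ} (hp : i ∉ p.vars) (n : ℕ) :
    i ∉ (p ^ n).vars := fun h => hp (vars_pow p n h)

lemma notMem_vars_X {ι : Type} {i j : ι} (h : i ≠ j) : i ∉ (X j : MvPolynomial ι ℂ).vars := by
  rw [vars_X, Finset.mem_singleton]
  exact h

lemma irreducible_G (l : ℕ) : Irreducible (G l) := by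
  set f : Poly 2 := X (Sum.inr 0) ^ (l + 2) with hf
  set g : Poly 2 := X (Sum.inl 0) * (X (Sum.inr 1) ^ 2 * X (Sum.inr 0) ^ l +
    X (Sum.inr 2) ^ (l + 2)) + X (Sum.inl 1) * (X (Sum.inr 2) * X (Sum.inr 0) ^ (l + 1)) with hg
  have hG : G l = f * X (Sum.inl 2) + g := by
    rw [hf, hg]
    simp [G, P, Fin.sum_univ_three]
    ring
  rw [hG]
  apply irreducible_mul_X_add
  · exact pow_ne_zero _ (X_ne_zero _)
  · exact notMem_vars_pow (notMem_vars_X (by simp)) _
  · refine notMem_vars_add (notMem_vars_mul (notMem_vars_X (by simp)) (notMem_vars_add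
      (notMem_vars_mul (notMem_vars_pow (notMem_vars_X (by simp)) _)
        (notMem_vars_pow (notMem_vars_X (by simp)) _))
      (notMem_vars_pow (notMem_vars_X (by simp)) _))) (notMem_vars_mul (notMem_vars_X (by simp))
      (notMem_vars_mul (notMem_vars_X (by simp)) (notMem_vars_pow (notMem_vars_X (by simp)) _)))
  · have hp : Prime (X (Sum.inr 0) : Poly 2) := X_prime
    have : ¬ (X (Sum.inr 0) : Poly 2) ∣ g := by
      rintro ⟨q, hq⟩
      have h1 := congrArg (eval (Sum.elim ![1, 0, 0] ![0, 0, 1] : Fin 3 ⊕ Fin 3 → ℂ)) hq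
      rw [hg] at h1
      simp at h1
    have h2 : IsRelPrime (X (Sum.inr 0) : Poly 2) g := (hp.irreducible.isRelPrime_iff_not_dvd).2 this
    exact h2.pow_left

lemma isZariskiOpen_univ : IsZariskiOpen (Set.univ : Set (PP 2)) := by
  refine ⟨{1}, ?_, ?_⟩
  · rintro f rfl
    exact ⟨0, isHomogeneous_one _ _⟩
  · symm
    rw [Set.eq_univ_iff_forall]
    intro p
    exact ⟨1, rfl, by simp⟩

lemma isZariskiOpen_ne : IsZariskiOpen {p : PP 2 | p.rep 0 ≠ 0} := by
  refine ⟨{X 0}, ?_, ?_⟩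
  · rintro f rfl
    exact ⟨1, isHomogeneous_X _ _⟩
  · ext p
    simp

lemma almostGridFree_G (l : ℕ) : AlmostGridFree 2 3 (zeroSet (G l)) := by
  classical
  have hv : (![1, 0, 0] : Fin 3 → ℂ) ≠ 0 := by
    intro h
    simpa using congrFun h 0
  refine ⟨Set.univ, {p | p.rep 0 ≠ 0}, isZariskiOpen_univ, ⟨Projectivization.mk ℂ _ hv, trivial⟩,
    isZariskiOpen_ne, ⟨Projectivization.mk ℂ _ hv, ?_⟩, ?_⟩
  · obtain ⟨a, ha⟩ := Projectivization.exists_smul_eq_mk_rep ℂ _ hv
    show (Projectivization.mk ℂ _ hv).rep 0 ≠ 0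
    rw [← ha]
    simp [Units.smul_def]
  rintro ⟨S, T, hS, hT, h⟩
  obtain ⟨u, u', huu, rfl⟩ := Finset.card_eq_two.1 hS
  have h0 : ∀ v ∈ T, v.rep 0 ≠ 0 := fun v hv => (h u (by simp) v hv).2.2
  -- affine form of the equations
  have aff : ∀ w : PP 2, ∀ v ∈ T, (w, v) ∈ zeroSet (G l) →
      w.rep 0 * ((v.rep 1 / v.rep 0) ^ 2 + (v.rep 2 / v.rep 0) ^ (l + 2)) +
        w.rep 1 * (v.rep 2 / v.rep 0) + w.rep 2 = 0 := by
    intro w v hv hw
    have h1 : eval (Sum.elim w.rep v.rep) (G l) = 0 := hw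
    rw [eval_G] at h1
    have h2 := h0 v hv
    have h3 : (v.rep 0 ^ (l + 2)) * (w.rep 0 * ((v.rep 1 / v.rep 0) ^ 2 +
        (v.rep 2 / v.rep 0) ^ (l + 2)) + w.rep 1 * (v.rep 2 / v.rep 0) + w.rep 2) = 0 := by
      rw [← h1, div_pow _ _ (l + 2)]
      field_simp
      ring
    exact (mul_eq_zero.1 h3).resolve_left (pow_ne_zero _ h2)
  have eu := fun v hv => aff u v hv (h u (by simp) v hv).1
  have eu' := fun v hv => aff u' v hv (h u' (by simp) v hv).1
  have hab : ∀ v ∈ T, ∀ w ∈ T, v.rep 2 / v.rep 0 = w.rep 2 / w.rep 0 ∧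
      (v.rep 1 / v.rep 0) ^ 2 = (w.rep 1 / w.rep 0) ^ 2 := by
    intro v hv w hw
    have e1 := eu v hv
    have e2 := eu w hw
    have e3 := eu' v hv
    have e4 := eu' w hw
    generalize v.rep 2 / v.rep 0 = b at *
    generalize w.rep 2 / w.rep 0 = b' at *
    generalize v.rep 1 / v.rep 0 = a at *
    generalize w.rep 1 / w.rep 0 = a' at *
    have key : a ^ 2 + b ^ (l + 2) = a' ^ 2 + b' ^ (l + 2) ∧ b = b' := by
      generalize a ^ 2 + b ^ (l + 2) = α at *
      generalize a' ^ 2 + b' ^ (l + 2) = α' at *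
      by_contra hne
      apply huu
      by_cases hα : α = α'
      · have hb : b ≠ b' := fun hb => hne ⟨hα, hb⟩
        have hb' : b - b' ≠ 0 := sub_ne_zero.2 hb
        subst hα
        have f1 : u.rep 1 = 0 := by
          have : u.rep 1 * (b - b') = 0 := by linear_combination e1 - e2
          exact (mul_eq_zero.1 this).resolve_right hb'
        have f2 : u'.rep 1 = 0 := by
          have : u'.rep 1 * (b - b') = 0 := by linear_combination e3 - e4
          exact (mul_eq_zero.1 this).resolve_right hb'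
        apply proj_eq (r := ![1, 0, -α]) (a := u.rep 0) (b := u'.rep 0)
        · funext i
          fin_cases i
          · simp
          · simp [f1]
          · rw [f1] at e1
            simp
            linear_combination e1
        · funext i
          fin_cases i
          · simp
          · simp [f2]
          · rw [f2] at e3
            simp
            linear_combination e3
      · have hα' : α - α' ≠ 0 := sub_ne_zero.2 hα
        have f1 : u.rep 0 = u.rep 1 * (-(b - b') / (α - α')) := by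
          rw [mul_div_assoc', eq_div_iff hα']
          linear_combination e1 - e2
        have f2 : u'.rep 0 = u'.rep 1 * (-(b - b') / (α - α')) := by
          rw [mul_div_assoc', eq_div_iff hα']
          linear_combination e3 - e4
        apply proj_eq (r := ![-(b - b') / (α - α'), 1, -(-(b - b') / (α - α') * α + b)])
          (a := u.rep 1) (b := u'.rep 1)
        · funext i
          fin_cases i
          · simpa using f1
          · simp
          · rw [f1] at e1
            simp only [Fin.reduceFinMk, Pi.smul_apply, smul_eq_mul, Matrix.cons_val]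
            linear_combination e1
        · funext i
          fin_cases i
          · simpa using f2
          · simp
          · rw [f2] at e3
            simp only [Fin.reduceFinMk, Pi.smul_apply, smul_eq_mul, Matrix.cons_val]
            linear_combination e3
    obtain ⟨k1, k2⟩ := key
    refine ⟨k2, ?_⟩
    rw [k2] at k1
    linear_combination k1
  -- two points of `T` have opposite first coordinates
  have opp : ∀ v ∈ T, ∀ w ∈ T, v ≠ w → v.rep 1 / v.rep 0 = -(w.rep 1 / w.rep 0) := by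
    intro v hv w hw hvw
    obtain ⟨k1, k2⟩ := hab v hv w hw
    rcases sq_eq_sq_iff_eq_or_eq_neg.1 k2 with h' | h'
    · exfalso
      apply hvw
      have h1 := h0 v hv
      have h2 := h0 w hw
      apply proj_eq (r := ![1, w.rep 1 / w.rep 0, w.rep 2 / w.rep 0]) (a := v.rep 0)
        (b := w.rep 0)
      · rw [← h', ← k1]
        funext i
        fin_cases i
        · simp
        · simp; field_simp
        · simp; field_simp
      · funext i
        fin_cases i
        · simp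
        · simp; field_simp
        · simp; field_simp
    · exact h'
  obtain ⟨v, w, z, hvw, hvz, hwz, rfl⟩ := Finset.card_eq_three.1 hT
  have e1 := opp v (by simp) w (by simp) hvw
  have e2 := opp v (by simp) z (by simp) hvz
  have e3 := opp w (by simp) z (by simp) hwz
  have e4 : w.rep 1 / w.rep 0 = z.rep 1 / z.rep 0 := neg_injective (e1.symm.trans e2)
  have hz : z.rep 1 / z.rep 0 = 0 := by
    have : z.rep 1 / z.rep 0 = -(z.rep 1 / z.rep 0) := e4.symm.trans e3
    exact self_eq_neg.1 this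
  -- then `w = z`
  apply hwz
  obtain ⟨k1, -⟩ := hab w (by simp) z (by simp)
  have h1 := h0 w (by simp)
  have h2 := h0 z (by simp)
  apply proj_eq (r := ![1, z.rep 1 / z.rep 0, z.rep 2 / z.rep 0]) (a := w.rep 0)
    (b := z.rep 0)
  · rw [← e4, ← k1]
    funext i
    fin_cases i
    · simp
    · simp; field_simp
    · simp; field_simp
  · funext i
    fin_cases i
    · simp
    · simp; field_simp
    · simp; field_simp

/-! ### the argument -/

lemma eval_aeval_poly {ι : Type} (L : ι → Polynomial ℂ) (F : MvPolynomial ι ℂ) (t : ℂ) :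
    (aeval L F).eval t = eval (fun i => (L i).eval t) F := by
  have h : (Polynomial.aeval t : Polynomial ℂ →ₐ[ℂ] ℂ).comp (aeval L) =
      aeval (fun i => (L i).eval t) := by
    apply algHom_ext
    intro i
    simp [Polynomial.coe_aeval_eq_eval]
  have := congrArg (fun f => f F) h
  simpa [AlgHom.comp_apply, aeval_eq_eval, Polynomial.coe_aeval_eq_eval] using this

lemma eval_aeval_mv {ι κ : Type} (L : ι → MvPolynomial κ ℂ) (F : MvPolynomial ι ℂ) (t : κ → ℂ) :
    eval t (aeval L F) = eval (fun i => eval t (L i)) F := by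
  have h : (aeval t : MvPolynomial κ ℂ →ₐ[ℂ] ℂ).comp (aeval L) =
      aeval (fun i => eval t (L i)) := by
    apply algHom_ext
    intro i
    simp [aeval_eq_eval]
  have := congrArg (fun f => f F) h
  simpa [AlgHom.comp_apply, aeval_eq_eval] using this

/-- substitution of a dominant map in a nonzero homogeneous polynomial gives a nonzero one -/
lemma aeval_ne_zero {τ σ : Fin 3 → MvPolynomial (Fin 3) ℂ} {K : MvPolynomial (Fin 3) ℂ}
    (hK : K ≠ 0) (h : ∀ i, aeval σ (τ i) = K * X i) {g : MvPolynomial (Fin 3) ℂ} {n : ℕ}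
    (hg : g.IsHomogeneous n) (hg0 : g ≠ 0) : aeval τ g ≠ 0 := by
  intro h0
  have h1 : aeval σ (aeval τ g) = K ^ n * g := by
    have h2 : aeval σ (aeval τ g) = aeval (fun i => K * X i) g := by
      have : (aeval σ).comp (aeval τ) =
          aeval (fun i => K * X i : Fin 3 → MvPolynomial (Fin 3) ℂ) := by
        apply algHom_ext
        intro i
        simp only [AlgHom.comp_apply, aeval_X, h]
      rw [← this, AlgHom.comp_apply]
    rw [h2, aeval_hom hg]
    have h3 : aeval (fun i => X i : Fin 3 → MvPolynomial (Fin 3) ℂ) g = g :=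
      aeval_X_left_apply g
    rw [h3]
  rw [h0, map_zero] at h1
  exact mul_ne_zero (pow_ne_zero _ hK) hg0 h1.symm

/-- the pull back of `h` to the points `u = (c_0 P_2, c_1 P_2, -(c_0 P_0 + c_1 P_1))` -/
noncomputable def Hc (l : ℕ) (c : Fin 3 → ℂ) (h : MvPolynomial (Fin 3) ℂ) :
    MvPolynomial (Fin 3) ℂ :=
  aeval ![C (c 0) * P l 2, C (c 1) * P l 2, -(C (c 0) * P l 0 + C (c 1) * P l 1)] h

lemma Hc_hom (l : ℕ) (c : Fin 3 → ℂ) {h : MvPolynomial (Fin 3) ℂ} {n : ℕ}
    (hh : h.IsHomogeneous n) : (Hc l c h).IsHomogeneous ((l + 2) * n) := by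
  apply hh.aeval
  intro i
  fin_cases i
  · exact (P_hom l 2).C_mul _
  · exact (P_hom l 2).C_mul _
  · exact (((P_hom l 0).C_mul _).add ((P_hom l 1).C_mul _)).neg

lemma Hc_ne_zero (l : ℕ) {c : Fin 3 → ℂ} (hc : c 0 ≠ 0) {h : MvPolynomial (Fin 3) ℂ}
    (hh : eval c h ≠ 0) : Hc l c h ≠ 0 := by
  intro h0
  obtain ⟨y, hy⟩ := IsAlgClosed.exists_pow_nat_eq (-(c 2) / c 0) (n := 2) (by norm_num)
  apply hh
  have h1 := congrArg (eval ![1, y, 0]) h0
  rw [Hc, eval_aeval_mv, map_zero] at h1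
  rw [← h1]
  congr 1
  congr 1
  funext i
  fin_cases i
  · simp [P]
  · simp [P]
  · simp only [P, Fin.reduceFinMk, Matrix.cons_val, Matrix.cons_val_zero, map_neg, map_add,
      map_mul, eval_C, map_pow, eval_X]
    simp [hy]
    field_simp

lemma psi_zero {l m n N : ℕ} {σ : Fin 3 → MvPolynomial (Fin 3) ℂ} {F : Poly 2}
    (hσ : ∀ i, (σ i).IsHomogeneous N) (hF : IsBihom F m n) {U V : Set (PP 2)}
    (hUV : zeroSet (G l) ∩ U ×ˢ V = zeroSet (comp F σ) ∩ U ×ˢ V)
    {h k : MvPolynomial (Fin 3) ℂ}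
    (hh : ∀ (u : Fin 3 → ℂ) (hu : u ≠ 0), eval u h ≠ 0 → Projectivization.mk ℂ u hu ∈ U)
    (hk : ∀ (u : Fin 3 → ℂ) (hu : u ≠ 0), eval u k ≠ 0 → Projectivization.mk ℂ u hu ∈ V)
    {c : Fin 3 → ℂ} (hc : c 0 ≠ 0) (a : Fin 3 → Polynomial ℂ)
    (hne : aeval a (X 0 * k * Hc l c h) ≠ 0) :
    aeval (Sum.elim ![Polynomial.C (c 0) * aeval a (P l 2), Polynomial.C (c 1) * aeval a (P l 2),
      -(Polynomial.C (c 0) * aeval a (P l 0) + Polynomial.C (c 1) * aeval a (P l 1))]
      fun i => aeval a (σ i)) F = 0 := by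
  have key : aeval a (X 0 * k * Hc l c h) * aeval (Sum.elim
      ![Polynomial.C (c 0) * aeval a (P l 2), Polynomial.C (c 1) * aeval a (P l 2),
      -(Polynomial.C (c 0) * aeval a (P l 0) + Polynomial.C (c 1) * aeval a (P l 1))]
      fun i => aeval a (σ i)) F = 0 := by
    apply Polynomial.funext
    intro t
    rw [Polynomial.eval_mul, Polynomial.eval_zero]
    by_cases h0 : (aeval a (X 0 * k * Hc l c h)).eval t = 0
    · rw [h0, zero_mul]
    apply mul_eq_zero_of_right
    rw [eval_aeval_poly] at h0 ⊢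
    set v : Fin 3 → ℂ := fun i => (a i).eval t with hv
    rw [map_mul, map_mul, eval_X] at h0
    have hv0 : v 0 ≠ 0 := left_ne_zero_of_mul (left_ne_zero_of_mul h0)
    have hkv : eval v k ≠ 0 := right_ne_zero_of_mul (left_ne_zero_of_mul h0)
    have hhv : eval v (Hc l c h) ≠ 0 := right_ne_zero_of_mul h0
    set u : Fin 3 → ℂ := ![c 0 * eval v (P l 2), c 1 * eval v (P l 2),
      -(c 0 * eval v (P l 0) + c 1 * eval v (P l 1))] with hu
    have hP2 : eval v (P l 2) ≠ 0 := by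
      show eval v (X 0 ^ (l + 2)) ≠ 0
      simp [hv0]
    have hune : u ≠ 0 := by
      intro h1
      have := congrFun h1 0
      rw [hu] at this
      simp only [Matrix.cons_val_zero, Pi.zero_apply] at this
      exact mul_ne_zero hc hP2 this
    have hvne : v ≠ 0 := fun h1 => hv0 (congrFun h1 0)
    have hhu : eval u h ≠ 0 := by
      convert hhv using 1
      rw [Hc, eval_aeval_mv]
      congr 1
      congr 1
      funext i
      rw [hu]
      fin_cases i <;> simp
    have hmem : ((Projectivization.mk ℂ u hune, Projectivization.mk ℂ v hvne) : PP 2 × PP 2) ∈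
        zeroSet (G l) ∩ U ×ˢ V := by
      refine ⟨?_, hh u hune hhu, hk v hvne hkv⟩
      rw [mem_zeroSet_mk (isBihom_G l)]
      refine (eval_G' l u v).trans ?_
      simp only [hu, Matrix.cons_val_zero, Matrix.cons_val_one, Matrix.cons_val]
      ring
    rw [hUV] at hmem
    have h3 := mem_zeroSet_comp hF hσ hune hvne hmem.1
    rw [← h3]
    congr 1
    congr 1
    funext i
    rcases i with i | i
    · fin_cases i <;> simp [hu, eval_aeval_poly, hv]
    · simp [eval_aeval_poly, hv]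
  exact (mul_eq_zero.1 key).resolve_left hne

/-- the slice `F(c, z)` -/
noncomputable def slice (c : Fin 3 → ℂ) (F : Poly 2) : MvPolynomial (Fin 3) ℂ :=
  aeval (Sum.elim (fun i => C (c i)) X) F

lemma eval_slice (c z : Fin 3 → ℂ) (F : Poly 2) :
    eval z (slice c F) = eval (Sum.elim c z) F := by
  rw [slice, eval_aeval_mv]
  congr 2
  funext i
  rcases i with i | i <;> simp

/-- the restriction of `F` to `x = (c_0, c_1, W)`, `z` on the line -/
noncomputable def pol (c : Fin 3 → ℂ) (L : Fin 3 → Polynomial ℂ) (F : Poly 2) :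
    Polynomial (Polynomial ℂ) :=
  aeval (Sum.elim ![Polynomial.C (Polynomial.C (c 0)), Polynomial.C (Polynomial.C (c 1)),
    Polynomial.X] fun i => Polynomial.C (L i)) F

lemma pol_coeff {m n : ℕ} {F : Poly 2} (hF : IsBihom F m n) (c : Fin 3 → ℂ)
    {L : Fin 3 → Polynomial ℂ} (hL : ∀ i, (L i).natDegree ≤ 1) (k : ℕ) :
    ((pol c L F).coeff k).natDegree ≤ n := by
  rw [pol, aeval_def, eval₂_eq', Polynomial.finsetSum_coeff]
  apply Polynomial.natDegree_sum_le_of_forall_le
  intro d hd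
  obtain ⟨-, h2⟩ := hF d hd
  have h3 : (algebraMap ℂ (Polynomial (Polynomial ℂ))) (coeff d F) *
      ∏ i, (Sum.elim ![Polynomial.C (Polynomial.C (c 0)), Polynomial.C (Polynomial.C (c 1)),
        Polynomial.X] (fun i => Polynomial.C (L i)) i) ^ d i =
      Polynomial.C (Polynomial.C (coeff d F * c 0 ^ d (Sum.inl 0) * c 1 ^ d (Sum.inl 1)) *
        ∏ i, L i ^ d (Sum.inr i)) * Polynomial.X ^ d (Sum.inl 2) := by
    rw [Fintype.prod_sum_type, Fin.prod_univ_three]
    simp only [Sum.elim_inl, Sum.elim_inr, Matrix.cons_val_zero, Matrix.cons_val_one,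
      Matrix.cons_val, map_mul, map_pow, map_prod]
    have : (algebraMap ℂ (Polynomial (Polynomial ℂ))) (coeff d F) =
      Polynomial.C (Polynomial.C (coeff d F)) := rfl
    rw [this]
    ring
  rw [h3, Polynomial.coeff_C_mul_X_pow]
  split_ifs
  · refine le_trans (Polynomial.natDegree_C_mul_le _ _) ?_
    refine le_trans (Polynomial.natDegree_prod_le _ _) ?_
    have h2' : ∑ i : Fin 3, d (Sum.inr i) = n := h2
    rw [← h2']
    apply Finset.sum_le_sum
    intro i _
    refine le_trans Polynomial.natDegree_pow_le ?_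
    have := hL i
    calc d (Sum.inr i) * (L i).natDegree ≤ d (Sum.inr i) * 1 := Nat.mul_le_mul_left _ this
      _ = d (Sum.inr i) := mul_one _
  · simp

lemma pol_ne_zero {F : Poly 2} {c : Fin 3 → ℂ} {L : Fin 3 → Polynomial ℂ} {t : ℂ}
    (h : eval (fun i => (L i).eval t) (slice c F) ≠ 0) : pol c L F ≠ 0 := by
  intro h0
  apply h
  rw [eval_slice]
  have h1 := congrArg (fun p => (p.eval (Polynomial.C (c 2))).eval t) h0
  simp only [Polynomial.eval_zero] at h1
  rw [← h1]
  have h2 : ((Polynomial.evalRingHom t).comp (Polynomial.evalRingHom (Polynomial.C (c 2)))).comp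
      (aeval (Sum.elim ![Polynomial.C (Polynomial.C (c 0)), Polynomial.C (Polynomial.C (c 1)),
    Polynomial.X] fun i => Polynomial.C (L i)) : Poly 2 →ₐ[ℂ] Polynomial (Polynomial ℂ)).toRingHom =
      eval (Sum.elim c fun i => (L i).eval t) := by
    apply ringHom_ext
    · intro r
      simp
    · intro i
      rcases i with i | i
      · fin_cases i <;> simp
      · simp
  have h3 := congrArg (fun f => f F) h2
  exact h3.symm

open Pool.Agent.Q82.Height in
lemma ht_rho {m n : ℕ} {F : Poly 2} (hF : IsBihom F m n) {c : Fin 3 → ℂ}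
    {L : Fin 3 → Polynomial ℂ} (hL : ∀ i, (L i).natDegree ≤ 1) {t : ℂ}
    (h : eval (fun i => (L i).eval t) (slice c F) ≠ 0)
    {p₀ p₁ p₂ k : Polynomial ℂ} (hp : p₂ ≠ 0) (hk : k ≠ 0)
    (hpsi : aeval (Sum.elim ![Polynomial.C (c 0) * p₂, Polynomial.C (c 1) * p₂,
      -(Polynomial.C (c 0) * p₀ + Polynomial.C (c 1) * p₁)] fun i => k * L i) F = 0) :
    Ht (-(algebraMap (Polynomial ℂ) (RatFunc ℂ) (Polynomial.C (c 0) * p₀ + Polynomial.C (c 1) * p₁)
      / algebraMap (Polynomial ℂ) (RatFunc ℂ) p₂)) n := by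
  apply ht_of_root (pol_ne_zero h) (pol_coeff hF c hL)
  set φ := algebraMap (Polynomial ℂ) (RatFunc ℂ) with hφ
  set ρ : RatFunc ℂ := -(φ (Polynomial.C (c 0) * p₀ + Polynomial.C (c 1) * p₁) / φ p₂) with hρ
  have hp' : φ p₂ ≠ 0 := RatFunc.algebraMap_ne_zero hp
  have hk' : φ k ≠ 0 := RatFunc.algebraMap_ne_zero hk
  have h1 : Polynomial.aeval ρ (pol c L F) =
      aeval (Sum.elim ![φ (Polynomial.C (c 0)), φ (Polynomial.C (c 1)), ρ] fun i => φ (L i)) F := by
    have h2 : ((Polynomial.aeval ρ : Polynomial (Polynomial ℂ) →ₐ[Polynomial ℂ] RatFunc ℂ).toRingHom).comp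
      (aeval (Sum.elim ![Polynomial.C (Polynomial.C (c 0)), Polynomial.C (Polynomial.C (c 1)),
    Polynomial.X] fun i => Polynomial.C (L i)) : Poly 2 →ₐ[ℂ] Polynomial (Polynomial ℂ)).toRingHom =
      (aeval (Sum.elim ![φ (Polynomial.C (c 0)), φ (Polynomial.C (c 1)), ρ] fun i => φ (L i)) :
        Poly 2 →ₐ[ℂ] RatFunc ℂ).toRingHom := by
      apply ringHom_ext
      · intro r
        have e1 : algebraMap ℂ (Polynomial (Polynomial ℂ)) r =
          Polynomial.C (Polynomial.C r) := rfl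
        simp [e1]
      · intro i
        rcases i with i | i
        · fin_cases i <;> simp [hφ]
        · simp [hφ]
    exact congrArg (fun f => f F) h2
  rw [h1]
  have h4 : aeval (Sum.elim (fun i => φ p₂ * (![φ (Polynomial.C (c 0)), φ (Polynomial.C (c 1)), ρ] :
      Fin 3 → RatFunc ℂ) i) fun i => φ k * φ (L i)) F = (0 : RatFunc ℂ) := by
    have h5 : (Sum.elim (fun i => φ p₂ * (![φ (Polynomial.C (c 0)), φ (Polynomial.C (c 1)), ρ] :
        Fin 3 → RatFunc ℂ) i) fun i => φ k * φ (L i)) = φ ∘ (Sum.elim ![Polynomial.C (c 0) * p₂,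
        Polynomial.C (c 1) * p₂,
        -(Polynomial.C (c 0) * p₀ + Polynomial.C (c 1) * p₁)] fun i => k * L i) := by
      funext i
      rcases i with i | i
      · fin_cases i
        · simp [mul_comm]
        · simp [mul_comm]
        · simp only [Fin.reduceFinMk, Sum.elim_inl, Matrix.cons_val, Function.comp_apply, map_neg]
          rw [hρ]
          field_simp
      · simp
    rw [h5, hφ, aeval_algebraMap_apply, hpsi, map_zero]
  rw [aeval_bihom hF] at h4
  exact (mul_eq_zero.1 h4).resolve_left (mul_ne_zero (pow_ne_zero _ hp') (pow_ne_zero _ hk'))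

/-- the line through `z₀` and `z₁` -/
noncomputable def line (z₀ z₁ : Fin 3 → ℂ) (i : Fin 3) : Polynomial ℂ :=
  Polynomial.C (z₀ i) + Polynomial.X * Polynomial.C (z₁ i - z₀ i)

lemma line_natDegree (z₀ z₁ : Fin 3 → ℂ) (i : Fin 3) : (line z₀ z₁ i).natDegree ≤ 1 := by
  rw [line]
  compute_degree

open Pool.Agent.Q82.Height in
lemma main {d l m n : ℕ} {σ : Fin 3 → MvPolynomial (Fin 3) ℂ} {F : Poly 2}
    (hσ : IsCremona (s := 2) σ) (hF : IsBihom F m n) (hn : n ≤ d) (hl : 26 * d < l + 2)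
    (h : AlmostEqual (zeroSet (G l)) (zeroSet (comp F σ))) : False := by
  obtain ⟨⟨N, hN⟩, -, τ, M, hτ, ⟨K, hK, hK1⟩, K', hK', hK2⟩ := hσ
  obtain ⟨U, V, hU, hUne, hV, hVne, hUV⟩ := h
  obtain ⟨h, nh, hh, hh0, hhU⟩ := exists_of_open hU hUne
  obtain ⟨k, nk, hk, hk0, hkV⟩ := exists_of_open hV hVne
  -- `F` is nonzero
  have hF0 : F ≠ 0 := by
    rintro rfl
    have h1 : G l * (rename Sum.inl h * rename Sum.inr k) ≠ 0 := by
      refine mul_ne_zero (irreducible_G l).ne_zero (mul_ne_zero ?_ ?_)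
      · rwa [Ne, map_eq_zero_iff _ (rename_injective _ Sum.inl_injective)]
      · rwa [Ne, map_eq_zero_iff _ (rename_injective _ Sum.inr_injective)]
    obtain ⟨x, hx⟩ := exists_eval_ne h1
    obtain ⟨u, v, rfl⟩ : ∃ u v : Fin 3 → ℂ, x = Sum.elim u v :=
      ⟨x ∘ Sum.inl, x ∘ Sum.inr, (Sum.elim_comp_inl_inr x).symm⟩
    rw [map_mul, map_mul, eval_rename, eval_rename] at hx
    have e1 : Sum.elim u v ∘ Sum.inl = u := rfl
    have e2 : Sum.elim u v ∘ Sum.inr = v := rfl
    rw [e1, e2] at hx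
    have g1 := left_ne_zero_of_mul hx
    have g2 := left_ne_zero_of_mul (right_ne_zero_of_mul hx)
    have g3 := right_ne_zero_of_mul (right_ne_zero_of_mul hx)
    have hu : u ≠ 0 := by
      rintro rfl
      apply g1
      rw [eval_G']
      simp
    have hv : v ≠ 0 := by
      rintro rfl
      apply g1
      rw [eval_G]
      simp
    apply g1
    rw [← mem_zeroSet_mk (isBihom_G l) hu hv]
    have : ((Projectivization.mk ℂ u hu, Projectivization.mk ℂ v hv) : PP 2 × PP 2) ∈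
        zeroSet (comp 0 σ) ∩ U ×ˢ V := by
      refine ⟨?_, hhU u hu g2, hkV v hv g3⟩
      simp [zeroSet, comp]
    rw [← hUV] at this
    exact this.1
  -- choice of slices
  have hslice : ∀ g : MvPolynomial (Fin 3) ℂ, g ≠ 0 → ∃ c : Fin 3 → ℂ,
      slice c F ≠ 0 ∧ eval c g ≠ 0 := by
    intro g hg
    have h1 : F * rename Sum.inl g ≠ 0 := by
      refine mul_ne_zero hF0 ?_
      rwa [Ne, map_eq_zero_iff _ (rename_injective _ Sum.inl_injective)]
    obtain ⟨x, hx⟩ := exists_eval_ne h1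
    obtain ⟨u, v, rfl⟩ : ∃ u v : Fin 3 → ℂ, x = Sum.elim u v :=
      ⟨x ∘ Sum.inl, x ∘ Sum.inr, (Sum.elim_comp_inl_inr x).symm⟩
    rw [map_mul, eval_rename] at hx
    refine ⟨u, ?_, right_ne_zero_of_mul hx⟩
    intro h2
    apply left_ne_zero_of_mul hx
    rw [← eval_slice, h2, map_zero]
  obtain ⟨c, hc1, hc2⟩ := hslice (h * X 0) (mul_ne_zero hh0 (X_ne_zero _))
  rw [map_mul, eval_X] at hc2
  have hch := left_ne_zero_of_mul hc2
  have hc0 := right_ne_zero_of_mul hc2
  have hlin : (C (c 0) * X 1 - C (c 1) * X 0 : MvPolynomial (Fin 3) ℂ) ≠ 0 := by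
    intro h1
    have := congrArg (eval ![0, 1, 0]) h1
    simp at this
    exact hc0 this
  obtain ⟨c', hc1', hc2'⟩ := hslice (h * X 0 * (C (c 0) * X 1 - C (c 1) * X 0))
    (mul_ne_zero (mul_ne_zero hh0 (X_ne_zero _)) hlin)
  rw [map_mul, map_mul, eval_X] at hc2'
  have hch' := left_ne_zero_of_mul (left_ne_zero_of_mul hc2')
  have hc0' := right_ne_zero_of_mul (left_ne_zero_of_mul hc2')
  have hΔ : c 0 * c' 1 - c 1 * c' 0 ≠ 0 := by
    have := right_ne_zero_of_mul hc2'
    simpa using this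
  -- choice of the line
  have hκ0 : (X 0 * P l 0 * k * Hc l c h * Hc l c' h) ≠ 0 := by
    refine mul_ne_zero (mul_ne_zero (mul_ne_zero (mul_ne_zero (X_ne_zero _) ?_) hk0)
      (Hc_ne_zero l hc0 hch)) (Hc_ne_zero l hc0' hch')
    intro h1
    have := congrArg (eval ![0, 0, 1]) h1
    simp [P] at this
  have hκ : ∃ e, (X 0 * P l 0 * k * Hc l c h * Hc l c' h).IsHomogeneous e :=
    ⟨_, ((((isHomogeneous_X _ _).mul (P_hom l 0)).mul hk).mul (Hc_hom l c hh)).mul
      (Hc_hom l c' hh)⟩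
  obtain ⟨e, hκ⟩ := hκ
  have hκτ := aeval_ne_zero hK' hK2 hκ hκ0
  obtain ⟨z₀, hz₀⟩ := exists_eval_ne (mul_ne_zero (mul_ne_zero hK (mul_ne_zero hc1 hc1')) hκτ)
  rw [map_mul, map_mul, map_mul] at hz₀
  have hz1 : (C (eval z₀ (τ 0)) * X 2 - C (eval z₀ (τ 2)) * X 0 : MvPolynomial (Fin 3) ℂ) ≠ 0 := by
    intro h1
    have h2 := congrArg (eval ![0, 0, 1]) h1
    simp only [map_sub, map_mul, eval_C, eval_X, Matrix.cons_val, Matrix.cons_val_zero, mul_one,
      mul_zero, sub_zero, map_zero] at h2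
    apply right_ne_zero_of_mul hz₀
    simp only [map_mul, aeval_X, h2, zero_mul]
  have hz1h : (C (eval z₀ (τ 0)) * X 2 - C (eval z₀ (τ 2)) * X 0 :
      MvPolynomial (Fin 3) ℂ).IsHomogeneous 1 :=
    ((isHomogeneous_X _ _).C_mul _).sub ((isHomogeneous_X _ _).C_mul _)
  obtain ⟨z₁, hz₁⟩ := exists_eval_ne (aeval_ne_zero hK' hK2 hz1h hz1)
  set L := line z₀ z₁ with hLdef
  have hL0 : (fun i => (L i).eval 0) = z₀ := by
    funext i
    simp [hLdef, line]
  have hL1 : (fun i => (L i).eval 1) = z₁ := by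
    funext i
    simp [hLdef, line]
  set a : Fin 3 → Polynomial ℂ := fun i => aeval L (τ i) with ha
  have ha' : ∀ g : MvPolynomial (Fin 3) ℂ, aeval a g = aeval L (aeval τ g) := by
    intro g
    have : (aeval L : MvPolynomial (Fin 3) ℂ →ₐ[ℂ] Polynomial ℂ).comp (aeval τ) = aeval a := by
      apply algHom_ext
      intro i
      simp only [AlgHom.comp_apply, aeval_X, ha]
    rw [← this, AlgHom.comp_apply]
  have hnz : ∀ g : MvPolynomial (Fin 3) ℂ, eval z₀ g ≠ 0 → aeval L g ≠ 0 := by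
    intro g hg h1
    apply hg
    rw [← hL0, ← eval_aeval_poly, h1, Polynomial.eval_zero]
  have hz₀κ : eval z₀ (aeval τ (X 0 : MvPolynomial (Fin 3) ℂ)) * eval z₀ (aeval τ (P l 0)) * eval z₀ (aeval τ k) *
      eval z₀ (aeval τ (Hc l c h)) * eval z₀ (aeval τ (Hc l c' h)) ≠ 0 := by
    have := right_ne_zero_of_mul hz₀
    rwa [map_mul, map_mul, map_mul, map_mul, map_mul, map_mul, map_mul, map_mul] at this
  have nz5 := right_ne_zero_of_mul hz₀κ
  have nz4 := right_ne_zero_of_mul (left_ne_zero_of_mul hz₀κ)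
  have nz3 := right_ne_zero_of_mul (left_ne_zero_of_mul (left_ne_zero_of_mul hz₀κ))
  have nz2 := right_ne_zero_of_mul (left_ne_zero_of_mul (left_ne_zero_of_mul
    (left_ne_zero_of_mul hz₀κ)))
  have nz1 := left_ne_zero_of_mul (left_ne_zero_of_mul (left_ne_zero_of_mul
    (left_ne_zero_of_mul hz₀κ)))
  have hKL : aeval L K ≠ 0 := by
    apply hnz
    exact left_ne_zero_of_mul (left_ne_zero_of_mul hz₀)
  have hs1 : eval z₀ (slice c F) ≠ 0 := by
    exact left_ne_zero_of_mul (right_ne_zero_of_mul (left_ne_zero_of_mul hz₀))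
  have hs2 : eval z₀ (slice c' F) ≠ 0 := by
    exact right_ne_zero_of_mul (right_ne_zero_of_mul (left_ne_zero_of_mul hz₀))
  have ha0 : a 0 ≠ 0 := by
    have := hnz _ nz1
    rwa [aeval_X] at this
  have hP2 : aeval a (P l 2) ≠ 0 := by
    have : aeval a (P l 2) = a 0 ^ (l + 2) := by
      show aeval a (X 0 ^ (l + 2) : MvPolynomial (Fin 3) ℂ) = _
      rw [map_pow, aeval_X]
    rw [this]
    exact pow_ne_zero _ ha0
  have hP0 : aeval a (P l 0) ≠ 0 := by
    rw [ha']
    exact hnz _ nz2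
  have hne : ∀ c : Fin 3 → ℂ, eval z₀ (aeval τ (Hc l c h)) ≠ 0 →
      aeval a (X 0 * k * Hc l c h) ≠ 0 := by
    intro c hc
    rw [ha']
    apply hnz
    rw [map_mul, map_mul, map_mul, map_mul]
    exact mul_ne_zero (mul_ne_zero nz1 nz3) hc
  have hσa : (fun i => aeval a (σ i)) = fun i => aeval L K * L i := by
    funext i
    rw [ha', hK1, map_mul, aeval_X]
  have p1 := psi_zero hN hF hUV hhU hkV hc0 a (hne c nz4)
  have p2 := psi_zero hN hF hUV hhU hkV hc0' a (hne c' nz5)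
  rw [hσa] at p1 p2
  have q1 := ht_rho hF (line_natDegree z₀ z₁) (t := 0) (by rw [hL0]; exact hs1) hP2 hKL p1
  have q2 := ht_rho hF (line_natDegree z₀ z₁) (t := 0) (by rw [hL0]; exact hs2) hP2 hKL p2
  set φ := algebraMap (Polynomial ℂ) (RatFunc ℂ) with hφ
  set p₀ := aeval a (P l 0) with hp₀
  set p₁ := aeval a (P l 1) with hp₁
  set p₂ := aeval a (P l 2) with hp₂
  have hφp : φ p₂ ≠ 0 := RatFunc.algebraMap_ne_zero hP2
  have hφp0 : φ p₀ ≠ 0 := RatFunc.algebraMap_ne_zero hP0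
  have hφa : φ (a 0) ≠ 0 := RatFunc.algebraMap_ne_zero ha0
  set Δ := c 0 * c' 1 - c 1 * c' 0 with hΔdef
  have hCΔ : ∀ x : ℂ, φ (Polynomial.C (x / Δ)) = φ (Polynomial.C x) / φ (Polynomial.C Δ) := by
    intro x
    have : φ (Polynomial.C Δ) ≠ 0 := RatFunc.algebraMap_ne_zero (by simpa using hΔ)
    rw [eq_div_iff this, ← map_mul, ← Polynomial.C_mul, div_mul_cancel₀ _ hΔ]
  have hφΔ : φ (Polynomial.C Δ) ≠ 0 := RatFunc.algebraMap_ne_zero (by simpa using hΔ)
  have hφΔ' : φ (Polynomial.C Δ) = φ (Polynomial.C (c 0)) * φ (Polynomial.C (c' 1)) -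
      φ (Polynomial.C (c 1)) * φ (Polynomial.C (c' 0)) := by
    rw [hΔdef]
    simp only [map_sub, map_mul]
  have hβ : Ht (φ p₁ / φ p₂) (2 * n) := by
    convert q1.lin q2 (c' 0 / Δ) (-(c 0) / Δ) using 1
    rw [hCΔ, hCΔ]
    simp only [map_add, map_mul, map_neg]
    field_simp
    rw [hφΔ']
    ring
  have hα : Ht (φ p₀ / φ p₂) (2 * n) := by
    convert q1.lin q2 (-(c' 1) / Δ) (c 1 / Δ) using 1
    rw [hCΔ, hCΔ]
    simp only [map_add, map_mul, map_neg]
    field_simp
    rw [hφΔ']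
    ring
  have e0 : p₀ = a 1 ^ 2 * a 0 ^ l + a 2 ^ (l + 2) := by
    show aeval a (X 1 ^ 2 * X 0 ^ l + X 2 ^ (l + 2) : MvPolynomial (Fin 3) ℂ) = _
    simp only [map_add, map_mul, map_pow, aeval_X]
  have e1 : p₁ = a 2 * a 0 ^ (l + 1) := by
    show aeval a (X 2 * X 0 ^ (l + 1) : MvPolynomial (Fin 3) ℂ) = _
    simp only [map_mul, map_pow, aeval_X]
  have e2 : p₂ = a 0 ^ (l + 2) := by
    show aeval a (X 0 ^ (l + 2) : MvPolynomial (Fin 3) ℂ) = _
    simp only [map_pow, aeval_X]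
  have hβ' : φ p₁ / φ p₂ = φ (a 2) / φ (a 0) := by
    rw [e1, e2, map_mul, map_pow, map_pow]
    field_simp
    ring
  have hsq : (φ (a 1) / φ (a 0)) ^ 2 = φ p₀ / φ p₂ - (φ p₁ / φ p₂) ^ (l + 2) := by
    rw [hβ', e0, e2]
    simp only [map_add, map_mul, map_pow]
    rw [div_pow _ _ (l + 2)]
    field_simp
    ring
  obtain ⟨r1, r2⟩ := const_of_sq (by omega : 13 * (2 * n) < l + 2) hα
    (div_ne_zero hφp0 hφp) hβ hsq
  rw [hβ'] at r1 r2
  rw [Polynomial.natDegree_eq_zero] at r1 r2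
  obtain ⟨x, hx⟩ := r1
  obtain ⟨y, hy⟩ := r2
  have hy0 : y ≠ 0 := by
    rintro rfl
    apply RatFunc.denom_ne_zero (φ (a 2) / φ (a 0))
    rw [← hy, Polynomial.C_0]
  have hcross : Polynomial.C x * a 0 = Polynomial.C y * a 2 := by
    apply RatFunc.algebraMap_injective ℂ
    have h1 := RatFunc.num_div_denom (φ (a 2) / φ (a 0))
    rw [← hx, ← hy] at h1
    have h2 : φ (Polynomial.C y) ≠ 0 := RatFunc.algebraMap_ne_zero (by simpa using hy0)
    rw [div_eq_div_iff h2 hφa] at h1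
    rw [map_mul, map_mul]
    linear_combination h1
  have f0 := congrArg (Polynomial.eval 0) hcross
  have f1 := congrArg (Polynomial.eval 1) hcross
  simp only [Polynomial.eval_mul, Polynomial.eval_C, ha, eval_aeval_poly, hL0, hL1] at f0 f1
  apply hz₁
  simp only [map_sub, map_mul, aeval_X, aeval_C, algebraMap_eq, eval_C]
  apply mul_left_cancel₀ hy0
  linear_combination (eval z₁ (τ 0)) * f0 - (eval z₀ (τ 0)) * f1

/-- For `s = 2` and `t = 3` and every `d` there is an irreducible hypersurface in `ℙ² × ℙ²` which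
is almost `(2, 3)`-grid-free and is not almost equal to `{F ∘ (id × σ) = 0}` for any birational
automorphism `σ` of `ℙ²` and any bihomogeneous `F` of degree at most `d` in `y`. -/
theorem result : ∀ d : ℕ, ∃ H : Set (PP 2 × PP 2),
    IsIrreducibleHypersurface H ∧ AlmostGridFree 2 3 H ∧
      ¬ ∃ (σ : Fin 3 → MvPolynomial (Fin 3) ℂ) (F : Poly 2) (m n : ℕ),
        IsCremona (s := 2) σ ∧ IsBihom F m n ∧ n ≤ d ∧ AlmostEqual H (zeroSet (comp F σ)) := by
  intro d
  refine ⟨zeroSet (G (26 * d)), ⟨_, _, _, isBihom_G _, irreducible_G _, rfl⟩,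
    almostGridFree_G _, ?_⟩
  rintro ⟨σ, F, m, n, h1, h2, h3, h4⟩
  exact main h1 h2 h3 (by omega) h4

end Pool.Agent.Results.MP_b5dac0_ag.CremonaUnbounded
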